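import Mathlib
import Pool.Agent.Lib.MP_558536_al_CX.Main

set_option autoImplicit false

/-!
# Periodic groups saturated with finite linear groups of odd degree

Let `H 0, …, H (r-1)` be finite groups.  Suppose that every `H i` embeds in some `PSL_n(F)`, where
`n = m i ≥ 3` is odd, `F = F i` is a field with `2 ≠ 0`, and the image contains the classes of all
signed permutation matrices of determinant one.  Then every periodic group saturated with the
family is isomorphic to one of its members.

Idea of the proof: let `T` be the group of diagonal sign matrices of determinant one in a copy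
`L ≤ G` of a member with `n` maximal.  Involutions of `G` acting on `T` as transpositions satisfy
the Coxeter relations modulo `T` elementwise; therefore they generate a metabelian-by-`S_n` group
modulo `T`, which is finite since finite subgroups are bounded.  If `G` were infinite, the
centralizer of `T` would be infinite, so some element outside `T` would centralize `T` and the
permutation matrices modulo `T`; there is no such element in any member of the family.
-/

namespace Pool.Agent.Results.MP_558536_al.OddLinearSaturation

universe u v w

theorem result {r : ℕ} (H : Fin r → Type v) [∀ i, Group (H i)] (hfin : ∀ i, Finite (H i))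
    (m : Fin r → ℕ) (hodd : ∀ i, Odd (m i)) (h3 : ∀ i, 3 ≤ m i)
    (F : Fin r → Type w) [∀ i, Field (F i)] (h2 : ∀ i, (2 : F i) ≠ 0)
    (ι : ∀ i, H i →* Matrix.ProjectiveSpecialLinearGroup (Fin (m i)) (F i))
    (hι : ∀ i, Function.Injective (ι i))
    (hm : ∀ i, ∀ A : Matrix.SpecialLinearGroup (Fin (m i)) (F i),
      (∃ (σ : Equiv.Perm (Fin (m i))) (ε : Fin (m i) → ℤˣ), ∀ a b,
        (A : Matrix (Fin (m i)) (Fin (m i)) (F i)) a b =
          if a = σ b then (((ε b : ℤˣ) : ℤ) : F i) else 0) →
      (QuotientGroup.mk A : Matrix.ProjectiveSpecialLinearGroup (Fin (m i)) (F i)) ∈ (ι i).range)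
    (G : Type u) [Group G] (hG : ∀ x : G, IsOfFinOrder x)
    (hsat : ∀ K : Subgroup G, Finite K →
      ∃ L : Subgroup G, K ≤ L ∧ ∃ i, Nonempty (L ≃* H i)) :
    ∃ i, Nonempty (G ≃* H i) :=
  Pool.Agent.Lib.MP_558536_al_CX.main H hfin m hodd h3 F h2 ι hι hm G hG hsat

end Pool.Agent.Results.MP_558536_al.OddLinearSaturation
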