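import Mathlib
import Pool.Agent.Lib.MP_558536_al.TwoLocal

set_option autoImplicit false

/-!
# Periodic groups saturated with finitely many finite groups

Let `H 0, …, H (n-1)` be finite groups such that every nonempty subfamily `J` has a member `H i`
with a 2-subgroup `T` and an element `w` normalizing `T` with the following property: whenever `T`
is embedded by `f` in a member `H j` of `J` and `y ∈ H j` acts on `f(T)` as `w` acts on `T`, the
cube of `y` is a 2-element.  Then every periodic group saturated with the family is isomorphic to
one of its members.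

For `T` a Sylow 2-subgroup of largest order in the subfamily and `w = 1` the property says that the
odd part of the centralizer of a Sylow 2-subgroup has exponent dividing 3.
-/

namespace Pool.Agent.Results.MP_558536_al.TwoLocalSaturation

universe u v

theorem result {n : ℕ} (H : Fin n → Type v) [∀ i, Group (H i)]
    (hfin : ∀ i, Finite (H i))
    (hloc : ∀ J : Set (Fin n), J.Nonempty →
      ∃ i ∈ J, ∃ (T : Subgroup (H i)) (w : H i),
        IsPGroup 2 T ∧ (∀ t ∈ T, w * t * w⁻¹ ∈ T) ∧
        ∀ j ∈ J, ∀ f : T →* H j, Function.Injective f → ∀ y : H j,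
          (∀ s t : T, w * s = t * w → y * f s = f t * y) →
          ∃ k : ℕ, (y ^ 3) ^ 2 ^ k = 1)
    (G : Type u) [Group G] (hG : ∀ x : G, IsOfFinOrder x)
    (hsat : ∀ K : Subgroup G, Finite K →
      ∃ L : Subgroup G, K ≤ L ∧ ∃ i, Nonempty (L ≃* H i)) :
    ∃ i, Nonempty (G ≃* H i) :=
  Pool.Agent.Lib.MP_558536_al.main H hfin hloc G hG hsat

end Pool.Agent.Results.MP_558536_al.TwoLocalSaturation
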